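import Pool.Agent.H65.CRZ.TD

/-!
# (CN) the constant.  helper99
-/

set_option autoImplicit false

namespace Pool.Agent.H99.CRZ

open Pool.Agent.H65.CRZ

theorem cn_exp : (12.1824 : ℝ) < Real.exp (5 / 2) ∧ Real.exp (5 / 2) < 12.1825 := by
  have h1 : Real.exp (5 / 2) ^ 2 = Real.exp 1 ^ 5 := by
    rw [← Real.exp_nat_mul, ← Real.exp_nat_mul]
    norm_num
  have h2 := Real.exp_one_gt_d9
  have h3 := Real.exp_one_lt_d9
  have h4 : (2.7182818283 : ℝ) ^ 5 < Real.exp 1 ^ 5 :=
    pow_lt_pow_left₀ h2 (by norm_num) (by norm_num)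
  have h5 : Real.exp 1 ^ 5 < (2.7182818286 : ℝ) ^ 5 :=
    pow_lt_pow_left₀ h3 (Real.exp_pos _).le (by norm_num)
  rw [← h1] at h4 h5
  constructor
  · apply lt_of_pow_lt_pow_left₀ 2 (Real.exp_pos _).le
    exact lt_trans (by norm_num) h4
  · apply lt_of_pow_lt_pow_left₀ 2 (by norm_num)
    exact lt_trans h5 (by norm_num)

theorem pf_CN : T_CN := by
  obtain ⟨h1, h2⟩ := cn_exp
  refine ⟨?_, ?_, ?_⟩
  · unfold cc
    have e : (2 : ℝ) * (5 / 4) = 5 / 2 := by norm_num
    rw [e]
    simp only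
    generalize Real.exp (5 / 2) = E at h1 h2 ⊢
    norm_num
    linarith
  · unfold cc
    have e : (2 : ℝ) * (5 / 4) = 5 / 2 := by norm_num
    rw [e]
    simp only
    generalize Real.exp (5 / 2) = E at h1 h2 ⊢
    norm_num
    linarith
  · rw [Real.log_le_iff_le_exp (by norm_num)]
    have h := Real.sum_le_exp_of_nonneg (x := 8187 / 10000) (by norm_num) 8
    refine le_trans ?_ h
    rw [Finset.sum_range_succ, Finset.sum_range_succ, Finset.sum_range_succ,
      Finset.sum_range_succ, Finset.sum_range_succ, Finset.sum_range_succ, Finset.sum_range_succ,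
      Finset.sum_range_succ]
    norm_num [Nat.factorial]

end Pool.Agent.H99.CRZ
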