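import Pool.Agent.H65.CRZ.TD

/-!
# (DB) Cauchy's formula in two variables for the main term.  helper99
-/

set_option autoImplicit false

open Complex Filter Topology MeasureTheory Metric

namespace Pool.Agent.H99.CRZ

open Pool.Agent.H65.CRZ

/-! ### one variable -/

/-- Cauchy's formula for `h c + l h' c` -/
theorem db_one {U : Set ℂ} (hU : IsOpen U) {c : ℂ} {ρ : ℝ} (hρ : 0 < ρ) {h : ℂ → ℂ}
    (hc : closedBall c ρ ⊆ U) (hh : DifferentiableOn ℂ h U) (l : ℂ) :
    ∫ φ in (0 : ℝ)..(2 * Real.pi), h (c + ρ * cexp (φ * I)) * (1 + l / (ρ * cexp (φ * I))) =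
      2 * Real.pi * (h c + l * deriv h c) := by
  have hcc : c ∈ ball c ρ := mem_ball_self hρ
  have hpi : (2 * Real.pi * I : ℂ) ≠ 0 := by
    simp [Real.pi_ne_zero, I_ne_zero]
  have hρc : (ρ : ℂ) ≠ 0 := by exact_mod_cast hρ.ne'
  have hd := (hh.diffContOnCl_ball hc)
  have h1 := hd.two_pi_i_inv_smul_circleIntegral_sub_inv_smul hcc
  have h2 := two_pi_I_inv_smul_circleIntegral_sub_sq_inv_smul_of_differentiable hU hc hh hcc
  have hI1 : ∫ φ in (0 : ℝ)..(2 * Real.pi), h (c + ρ * cexp (φ * I)) =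
      2 * Real.pi * h c := by
    have e : (∮ z in C(c, ρ), (z - c)⁻¹ • h z) =
        I * ∫ φ in (0 : ℝ)..(2 * Real.pi), h (c + ρ * cexp (φ * I)) := by
      unfold circleIntegral
      rw [← intervalIntegral.integral_const_mul]
      refine intervalIntegral.integral_congr fun φ _ => ?_
      simp only [deriv_circleMap, circleMap, add_sub_cancel_left, smul_eq_mul, zero_add]
      have := Complex.exp_ne_zero (φ * I)
      field_simp
    rw [e, smul_eq_mul] at h1
    have h3 := congrArg (fun z => (2 * Real.pi * I : ℂ) * z) h1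
    rw [← mul_assoc, mul_inv_cancel₀ hpi, one_mul] at h3
    have h4 : I * ∫ φ in (0 : ℝ)..(2 * Real.pi), h (c + ρ * cexp (φ * I)) =
        I * (2 * Real.pi * h c) := by
      rw [h3]
      ring
    exact mul_left_cancel₀ I_ne_zero h4
  have hI2 : ∫ φ in (0 : ℝ)..(2 * Real.pi), h (c + ρ * cexp (φ * I)) / (ρ * cexp (φ * I)) =
      2 * Real.pi * deriv h c := by
    have e : (∮ z in C(c, ρ), ((z - c) ^ 2)⁻¹ • h z) =
        I * ∫ φ in (0 : ℝ)..(2 * Real.pi), h (c + ρ * cexp (φ * I)) / (ρ * cexp (φ * I)) := by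
      unfold circleIntegral
      rw [← intervalIntegral.integral_const_mul]
      refine intervalIntegral.integral_congr fun φ _ => ?_
      simp only [deriv_circleMap, circleMap, add_sub_cancel_left, smul_eq_mul, zero_add]
      have := Complex.exp_ne_zero (φ * I)
      field_simp
    rw [e, smul_eq_mul] at h2
    have h3 := congrArg (fun z => (2 * Real.pi * I : ℂ) * z) h2
    rw [← mul_assoc, mul_inv_cancel₀ hpi, one_mul] at h3
    have h4 : I * ∫ φ in (0 : ℝ)..(2 * Real.pi),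
        h (c + ρ * cexp (φ * I)) / (ρ * cexp (φ * I)) = I * (2 * Real.pi * deriv h c) := by
      rw [h3]
      ring
    exact mul_left_cancel₀ I_ne_zero h4
  have hmem : ∀ φ : ℝ, c + ρ * cexp (φ * I) ∈ closedBall c ρ := by
    intro φ
    rw [mem_closedBall, dist_eq_norm, add_sub_cancel_left, norm_mul, Complex.norm_exp_ofReal_mul_I,
      mul_one, Complex.norm_real, Real.norm_eq_abs, abs_of_pos hρ]
  have hcont : Continuous fun φ : ℝ => h (c + ρ * cexp (φ * I)) := by
    refine (hh.continuousOn.mono hc).comp_continuous (by fun_prop) hmem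
  have hcont2 : Continuous fun φ : ℝ => h (c + ρ * cexp (φ * I)) / (ρ * cexp (φ * I)) :=
    hcont.div (by fun_prop) fun φ => mul_ne_zero hρc (Complex.exp_ne_zero _)
  have e1 : ∀ φ : ℝ, h (c + ρ * cexp (φ * I)) * (1 + l / (ρ * cexp (φ * I))) =
      h (c + ρ * cexp (φ * I)) + l * (h (c + ρ * cexp (φ * I)) / (ρ * cexp (φ * I))) := by
    intro φ
    ring
  rw [intervalIntegral.integral_congr fun φ _ => e1 φ,
    intervalIntegral.integral_add (hcont.intervalIntegrable _ _)
      ((hcont2.const_mul l).intervalIntegrable _ _),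
    intervalIntegral.integral_const_mul, hI1, hI2]
  ring

/-- the same with the conjugate parametrisation -/
theorem db_two {U : Set ℂ} (hU : IsOpen U) {c : ℂ} {ρ : ℝ} (hρ : 0 < ρ) {h : ℂ → ℂ}
    (hc : closedBall c ρ ⊆ U) (hh : DifferentiableOn ℂ h U) (l : ℂ) :
    ∫ φ in (0 : ℝ)..(2 * Real.pi),
      h (c + ρ * cexp (-(φ * I))) * (1 + l / (ρ * cexp (-(φ * I)))) =
      2 * Real.pi * (h c + l * deriv h c) := by
  rw [← db_one hU hρ hc hh l]
  have h1 := intervalIntegral.integral_comp_sub_left (a := (0 : ℝ)) (b := 2 * Real.pi)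
    (fun φ : ℝ => h (c + ρ * cexp (φ * I)) * (1 + l / (ρ * cexp (φ * I)))) (2 * Real.pi)
  rw [sub_self, sub_zero] at h1
  rw [← h1]
  refine intervalIntegral.integral_congr fun φ _ => ?_
  have e : cexp (((2 * Real.pi - φ : ℝ) : ℂ) * I) = cexp (-(φ * I)) := by
    push_cast
    rw [sub_mul, Complex.exp_sub, Complex.exp_two_pi_mul_I, Complex.exp_neg, one_div]
  rw [e]

/-! ### the main term -/

/-- `(1 - exp (-s)) / s` -/
noncomputable def dg (s : ℂ) : ℂ := (1 - cexp (-s)) / s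

noncomputable def dg1 (s : ℂ) : ℂ := (s * cexp (-s) - (1 - cexp (-s))) / s ^ 2

noncomputable def dg2 (s : ℂ) : ℂ :=
  (-(s ^ 2 * cexp (-s)) - 2 * s * cexp (-s) + 2 * (1 - cexp (-s))) / s ^ 3

theorem db_ex (s : ℂ) : HasDerivAt (fun s : ℂ => cexp (-s)) (-cexp (-s)) s := by
  have h := (hasDerivAt_neg s).cexp
  simpa using h

theorem db_g {s : ℂ} (hs : s ≠ 0) : HasDerivAt dg (dg1 s) s := by
  have h1 := ((db_ex s).const_sub 1).div (hasDerivAt_id s) hs
  refine h1.congr_deriv ?_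
  unfold dg1
  simp only [id]
  ring

theorem db_g1 {s : ℂ} (hs : s ≠ 0) : HasDerivAt dg1 (dg2 s) s := by
  have h0 := ((hasDerivAt_id s).mul (db_ex s)).sub ((db_ex s).const_sub 1)
  have h1 := h0.div (hasDerivAt_pow 2 s) (pow_ne_zero 2 hs)
  refine h1.congr_deriv ?_
  unfold dg2
  simp only [id, Pi.mul_apply, Pi.sub_apply]
  field_simp
  ring

noncomputable def dB (x a b : ℂ) : ℂ :=
  1 / x * (dg (a + b) * (1 + a * b * x ^ 2 / 3) + x / 2 * (1 + cexp (-(a + b))))

noncomputable def dB1 (x a b : ℂ) : ℂ :=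
  1 / x * (dg1 (a + b) * (1 + a * b * x ^ 2 / 3) + dg (a + b) * (a * x ^ 2 / 3) -
    x / 2 * cexp (-(a + b)))

noncomputable def dB2 (x a b : ℂ) : ℂ :=
  1 / x * (dg2 (a + b) * (1 + a * b * x ^ 2 / 3) + dg1 (a + b) * (b * x ^ 2 / 3) +
    (dg1 (a + b) * (a * x ^ 2 / 3) + dg (a + b) * (x ^ 2 / 3)) + x / 2 * cexp (-(a + b)))

theorem db_B {x a b : ℂ} (hx : x ≠ 0) (h : a + b ≠ 0) :
    1 / ((a + b) * x ^ 2) * ((x + (a + b) * x ^ 2 / 2 + a * b * x ^ 3 / 3) -
      cexp (-(a + b)) * (x + (-a + -b) * x ^ 2 / 2 + -a * -b * x ^ 3 / 3)) = dB x a b := by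
  unfold dB dg
  field_simp
  ring

theorem db_hb {x a b : ℂ} (h : a + b ≠ 0) : HasDerivAt (fun b => dB x a b) (dB1 x a b) b := by
  have hs : HasDerivAt (fun b : ℂ => a + b) 1 b := (hasDerivAt_id b).const_add a
  have h1 : HasDerivAt (fun b => dg (a + b)) (dg1 (a + b) * 1) b :=
    HasDerivAt.comp b (h₂ := dg) (db_g h) hs
  have h2 : HasDerivAt (fun b => cexp (-(a + b))) (-cexp (-(a + b)) * 1) b :=
    HasDerivAt.comp b (h₂ := fun s => cexp (-s)) (db_ex (a + b)) hs
  have h3 : HasDerivAt (fun b => 1 + a * b * x ^ 2 / 3) (a * x ^ 2 / 3) b := by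
    have h4 := (((hasDerivAt_id b).const_mul a).mul_const (x ^ 2)).div_const 3
    have h5 := h4.const_add 1
    refine h5.congr_deriv ?_
    ring
  have h6 := ((h1.mul h3).add ((h2.const_add 1).const_mul (x / 2))).const_mul (1 / x)
  refine h6.congr_deriv ?_
  unfold dB1
  ring

theorem db_sym (x a b : ℂ) : dB x a b = dB x b a := by
  unfold dB
  rw [add_comm a b, mul_comm a b]

theorem db_ha {x a b : ℂ} (h : a + b ≠ 0) : HasDerivAt (fun a => dB x a b) (dB1 x b a) a := by
  have h1 : (fun a => dB x a b) = fun a => dB x b a := funext fun a => db_sym x a b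
  rw [h1]
  exact db_hb (by rwa [add_comm])

theorem db_hab {x a b : ℂ} (h : a + b ≠ 0) : HasDerivAt (fun a => dB1 x a b) (dB2 x a b) a := by
  have hs : HasDerivAt (fun a : ℂ => a + b) 1 a := (hasDerivAt_id a).add_const b
  have h1 : HasDerivAt (fun a => dg (a + b)) (dg1 (a + b) * 1) a :=
    HasDerivAt.comp a (h₂ := dg) (db_g h) hs
  have h1' : HasDerivAt (fun a => dg1 (a + b)) (dg2 (a + b) * 1) a :=
    HasDerivAt.comp a (h₂ := dg1) (db_g1 h) hs
  have h2 : HasDerivAt (fun a => cexp (-(a + b))) (-cexp (-(a + b)) * 1) a :=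
    HasDerivAt.comp a (h₂ := fun s => cexp (-s)) (db_ex (a + b)) hs
  have h3 : HasDerivAt (fun a => 1 + a * b * x ^ 2 / 3) (b * x ^ 2 / 3) a := by
    have h4 := (((hasDerivAt_id a).mul_const b).mul_const (x ^ 2)).div_const 3
    have h5 := h4.const_add 1
    refine h5.congr_deriv ?_
    ring
  have h4 : HasDerivAt (fun a => a * x ^ 2 / 3) (x ^ 2 / 3) a := by
    have h5 := ((hasDerivAt_id a).mul_const (x ^ 2)).div_const 3
    refine h5.congr_deriv ?_
    ring
  have h6 := (((h1'.mul h3).add (h1.mul h4)).sub (h2.const_mul (x / 2))).const_mul (1 / x)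
  refine h6.congr_deriv ?_
  unfold dB2
  ring

/-- the circle lies in the left half plane -/
theorem db_ball {R : ℝ} (hR : 0 < R) : closedBall (-R : ℂ) (R / 2) ⊆ {z : ℂ | z.re < 0} := by
  intro z hz
  rw [mem_closedBall, dist_eq_norm, sub_neg_eq_add] at hz
  have h1 := abs_le.1 ((Complex.abs_re_le_norm (z + R)).trans hz)
  rw [Complex.add_re, Complex.ofReal_re] at h1
  show z.re < 0
  linarith [h1.2]

theorem pf_DB : T_DB := by
  intro R x l₁ l₂ hR hx
  have hU : IsOpen {z : ℂ | z.re < 0} := isOpen_lt Complex.continuous_re continuous_const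
  have hρ : 0 < R / 2 := by linarith
  have hxc : (x : ℂ) ≠ 0 := by exact_mod_cast hx.ne'
  have hcb := db_ball hR
  have hmem : ∀ w : ℂ, ‖w‖ = 1 → -(R : ℂ) + R / 2 * w ∈ closedBall (-R : ℂ) (R / 2) := by
    intro w hw
    rw [mem_closedBall, dist_eq_norm, add_sub_cancel_left, norm_mul, hw, mul_one]
    have e : ((R : ℂ) / 2) = ((R / 2 : ℝ) : ℂ) := by push_cast; ring
    rw [e, Complex.norm_real, Real.norm_eq_abs, abs_of_pos hρ]
  have hn1 : ∀ t : ℝ, ‖cexp (t * I)‖ = 1 := Complex.norm_exp_ofReal_mul_I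
  have hn2 : ∀ t : ℝ, ‖cexp (-(t * I))‖ = 1 := by
    intro t
    have h := Complex.norm_exp_ofReal_mul_I (-t)
    rw [← h]
    congr 2
    push_cast
    ring
  have hne : ∀ a b : ℂ, a.re < 0 → b.re < 0 → a + b ≠ 0 := by
    intro a b ha hb h
    have h1 := congrArg Complex.re h
    rw [Complex.add_re, Complex.zero_re] at h1
    linarith
  have hmR : (-(R : ℂ)).re < 0 := by
    rw [Complex.neg_re, Complex.ofReal_re]
    linarith
  have hb0 : ∀ a b : ℂ, a.re < 0 → b.re < 0 → b0 a b x = dB x a b := by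
    intro a b ha hb
    unfold b0 Bm FF
    rw [Complex.ofReal_one, mul_one]
    exact db_B hxc (hne a b ha hb)
  constructor
  · unfold b0 Bm FF
    refine Continuous.mul (continuous_const.div (by fun_prop) fun p => ?_) (by fun_prop)
    exact mul_ne_zero (hne _ _ (hcb (hmem _ (hn1 p.1))) (hcb (hmem _ (hn2 p.2))))
      (pow_ne_zero 2 hxc)
  · have ecast : ((R : ℂ) / 2) = ((R / 2 : ℝ) : ℂ) := by push_cast; ring
    -- the inner integral
    have hin : ∀ a : ℂ, a.re < 0 → ∀ c : ℂ, ∫ ψ in (0 : ℝ)..(2 * Real.pi),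
        b0 a (-R + R / 2 * cexp (-(ψ * I))) x *
          (c * (1 + l₂ / (R / 2 * cexp (-(ψ * I))))) =
        c * (2 * Real.pi * (dB x a (-R) + l₂ * dB1 x a (-R))) := by
      intro a ha c
      have h1 : DifferentiableOn ℂ (fun b => dB x a b) {z : ℂ | z.re < 0} := fun b hb =>
        (db_hb (hne a b ha hb)).differentiableAt.differentiableWithinAt
      have h2 := db_two hU hρ hcb h1 l₂
      rw [(db_hb (x := x) (hne a (-R) ha hmR)).deriv] at h2
      rw [← h2, ← intervalIntegral.integral_const_mul]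
      refine intervalIntegral.integral_congr fun ψ _ => ?_
      rw [hb0 a _ ha (hcb (hmem _ (hn2 ψ))), ecast]
      ring
    have h3 : ∫ φ in (0 : ℝ)..(2 * Real.pi), ∫ ψ in (0 : ℝ)..(2 * Real.pi),
        b0 (-R + R / 2 * cexp (φ * I)) (-R + R / 2 * cexp (-(ψ * I))) x *
        ((1 + l₁ / (R / 2 * cexp (φ * I))) * (1 + l₂ / (R / 2 * cexp (-(ψ * I))))) =
        ∫ φ in (0 : ℝ)..(2 * Real.pi), (2 * Real.pi * (dB x (-R + R / 2 * cexp (φ * I)) (-R) +
          l₂ * dB1 x (-R + R / 2 * cexp (φ * I)) (-R))) *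
          (1 + l₁ / (R / 2 * cexp (φ * I))) := by
      refine intervalIntegral.integral_congr fun φ _ => ?_
      rw [hin _ (hcb (hmem _ (hn1 φ)))]
      ring
    rw [h3]
    have h4 : DifferentiableOn ℂ (fun a => 2 * Real.pi * (dB x a (-R) + l₂ * dB1 x a (-R)))
        {z : ℂ | z.re < 0} := fun a ha =>
      ((((db_ha (hne a (-R) ha hmR)).add ((db_hab (hne a (-R) ha hmR)).const_mul l₂)).const_mul
        (2 * Real.pi : ℂ)).differentiableAt).differentiableWithinAt
    have h5 := db_one hU hρ hcb h4 l₁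
    have h6 : deriv (fun a => 2 * Real.pi * (dB x a (-R) + l₂ * dB1 x a (-R))) (-R) =
        2 * Real.pi * (dB1 x (-R) (-R) + l₂ * dB2 x (-R) (-R)) :=
      (((db_ha (hne (-R) (-R) hmR hmR)).add
        ((db_hab (hne (-R) (-R) hmR hmR)).const_mul l₂)).const_mul (2 * Real.pi : ℂ)).deriv
    rw [h6] at h5
    rw [ecast, h5]
    have hpi : (Real.pi : ℂ) ≠ 0 := by exact_mod_cast Real.pi_ne_zero
    have hRc : (R : ℂ) ≠ 0 := by exact_mod_cast hR.ne'
    have hE : cexp (-(-(R : ℂ) + -(R : ℂ))) = cexp (2 * R) := by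
      congr 1
      ring
    have h7 : dB x (-R) (-R) = k0 R x := by
      unfold dB dg k0
      rw [hE]
      push_cast
      have : (-(R : ℂ) + -(R : ℂ)) ≠ 0 := hne _ _ hmR hmR
      field_simp
      ring
    have h8 : dB1 x (-R) (-R) = k1 R x := by
      unfold dB1 dg dg1 k1
      rw [hE]
      push_cast
      have : (-(R : ℂ) + -(R : ℂ)) ≠ 0 := hne _ _ hmR hmR
      field_simp
      ring
    have h9 : dB2 x (-R) (-R) = k2 R x := by
      unfold dB2 dg dg1 dg2 k2
      rw [hE]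
      push_cast
      have : (-(R : ℂ) + -(R : ℂ)) ≠ 0 := hne _ _ hmR hmR
      field_simp
      ring
    rw [h7, h8, h9]
    field_simp
    ring

end Pool.Agent.H99.CRZ
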