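import Pool.Agent.H65.CRZ.TD

/-!
# (BB) the main term is bounded.  helper99
-/

set_option autoImplicit false

open Complex Filter Topology

namespace Pool.Agent.H99.CRZ

open Pool.Agent.H65.CRZ

theorem bb_re {R : ℝ} {a : ℂ} (ha : ‖a + R‖ ≤ R / 2) : a.re ≤ -R / 2 ∧ -a.re ≤ 3 * R / 2 ∧
    ‖a‖ ≤ 3 * R / 2 := by
  have h1 := abs_le.1 ((Complex.abs_re_le_norm (a + R)).trans ha)
  rw [Complex.add_re, Complex.ofReal_re] at h1
  have hR : 0 ≤ R := by
    have := (norm_nonneg _).trans ha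
    linarith
  refine ⟨by linarith [h1.2], by linarith [h1.1], ?_⟩
  have h2 : ‖a‖ ≤ ‖a + R‖ + ‖(R : ℂ)‖ := by
    have := norm_sub_le (a + R) (R : ℂ)
    rwa [add_sub_cancel_right] at this
  rw [Complex.norm_real, Real.norm_eq_abs, abs_of_nonneg hR] at h2
  linarith

theorem bb_FF {R x : ℝ} {a b : ℂ} (hx : 0 ≤ x) (hx1 : x ≤ 1) (ha : ‖a‖ ≤ 3 * R / 2)
    (hb : ‖b‖ ≤ 3 * R / 2) : ‖FF a b x‖ ≤ 1 + 3 * R / 2 + 3 * R ^ 2 / 4 := by
  unfold FF
  have hR : 0 ≤ 3 * R / 2 := (norm_nonneg _).trans ha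
  have h1 : ‖(x : ℂ)‖ ≤ 1 := by
    rw [Complex.norm_real, Real.norm_eq_abs, abs_of_nonneg hx]
    exact hx1
  have h0 := norm_nonneg (x : ℂ)
  have h2 : ‖(a + b) * (x : ℂ) ^ 2 / 2‖ ≤ 3 * R / 2 := by
    rw [norm_div, norm_mul, norm_pow, Complex.norm_ofNat]
    have h3 : ‖a + b‖ ≤ 3 * R := (norm_add_le _ _).trans (by linarith)
    have h4 : ‖(x : ℂ)‖ ^ 2 ≤ 1 := pow_le_one₀ h0 h1
    have h5 := mul_le_mul h3 h4 (by positivity) (by linarith)
    linarith
  have h3 : ‖a * b * (x : ℂ) ^ 3 / 3‖ ≤ 3 * R ^ 2 / 4 := by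
    rw [norm_div, norm_mul, norm_mul, norm_pow, Complex.norm_ofNat]
    have h4 : ‖(x : ℂ)‖ ^ 3 ≤ 1 := pow_le_one₀ h0 h1
    have h5 := mul_le_mul ha hb (norm_nonneg _) hR
    have h6 := mul_le_mul h5 h4 (by positivity) (by positivity)
    have h7 : 3 * R / 2 * (3 * R / 2) * 1 = 9 * R ^ 2 / 4 := by ring
    rw [h7] at h6
    linarith
  have h4 := norm_add_le ((x : ℂ) + (a + b) * (x : ℂ) ^ 2 / 2) (a * b * (x : ℂ) ^ 3 / 3)
  have h5 := norm_add_le (x : ℂ) ((a + b) * (x : ℂ) ^ 2 / 2)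
  linarith

theorem pf_BB : T_BB := by
  intro R κ hR hκ hκ1
  refine ⟨1 / (R * κ ^ 2) * ((1 + Real.exp (3 * R)) * (1 + 3 * R / 2 + 3 * R ^ 2 / 4)),
    by positivity, ?_⟩
  intro L l a b hL hl hlL ha hb
  have hl0 : 0 < l := lt_of_lt_of_le (by positivity) hl
  obtain ⟨ha1, ha2, ha3⟩ := bb_re ha
  obtain ⟨hb1, hb2, hb3⟩ := bb_re hb
  have hab : R ≤ ‖a + b‖ := by
    have h1 := Complex.abs_re_le_norm (a + b)
    rw [Complex.add_re] at h1
    have h2 := neg_abs_le (a.re + b.re)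
    linarith
  have hab0 : a + b ≠ 0 := by
    intro h
    rw [h, norm_zero] at hab
    linarith
  constructor
  · have hLc : (L : ℂ) ≠ 0 := by exact_mod_cast hL.ne'
    have hlc : (l : ℂ) ≠ 0 := by exact_mod_cast hl0.ne'
    unfold b0 Bm FF
    have e1 : -(a / L + b / L) * (L : ℂ) = -(a + b) := by
      field_simp
    rw [e1]
    push_cast
    rw [mul_one]
    field_simp
  · have hx0 : κ ≤ l / L := by
      rw [le_div_iff₀ hL]
      exact hl
    have hx1 : l / L ≤ 1 := by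
      rw [div_le_one hL]
      exact hlL
    have hx : 0 < l / L := lt_of_lt_of_le hκ hx0
    set x : ℝ := l / L with hxd
    unfold b0 Bm
    have h1 := bb_FF hx.le hx1 ha3 hb3
    have h2 := bb_FF (a := -a) (b := -b) hx.le hx1 (by rwa [norm_neg]) (by rwa [norm_neg])
    have h3 : ‖cexp (-(a + b) * ((1 : ℝ) : ℂ))‖ ≤ Real.exp (3 * R) := by
      rw [Complex.norm_exp]
      apply Real.exp_le_exp.2
      rw [Complex.ofReal_one, mul_one, Complex.neg_re, Complex.add_re]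
      linarith
    have h4 : ‖1 / ((a + b) * (x : ℂ) ^ 2)‖ ≤ 1 / (R * κ ^ 2) := by
      rw [norm_div, norm_one, norm_mul, norm_pow, Complex.norm_real, Real.norm_eq_abs,
        abs_of_pos hx]
      apply one_div_le_one_div_of_le (by positivity)
      exact mul_le_mul hab (pow_le_pow_left₀ hκ.le hx0 2) (by positivity) (norm_nonneg _)
    rw [norm_mul]
    refine mul_le_mul h4 ?_ (norm_nonneg _) (by positivity)
    have h5 := norm_sub_le (FF a b x) (cexp (-(a + b) * ((1 : ℝ) : ℂ)) * FF (-a) (-b) x)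
    rw [norm_mul] at h5
    have h6 := mul_le_mul h3 h2 (norm_nonneg _) (Real.exp_pos _).le
    linarith

end Pool.Agent.H99.CRZ
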